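import Mathlib

/-!
# Prime divisors orthogonal to a class of positive square are independent
-/

namespace Pool.Agent.H72.FB4

open scoped BigOperators

/-- A symmetric bilinear form which is negative definite on the orthogonal complement of `A`, and a
family of classes. -/
structure Hodge (r : ℕ) (Pr : Type) where
  f : (Fin r → ℝ) → (Fin r → ℝ) → ℝ
  A : Fin r → ℝ
  cl : Pr → Fin r → ℝ
  add : ∀ x y z, f (x + y) z = f x z + f y z
  mul : ∀ (t : ℝ) x y, f (t • x) y = t * f x y
  symm : ∀ x y, f x y = f y x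
  index : ∀ x, f A x = 0 → f x x ≤ 0
  index_eq : ∀ x, f A x = 0 → f x x = 0 → x = 0

namespace Hodge

variable {r : ℕ} {Pr : Type} (H : Hodge r Pr)

theorem add' (x y z : Fin r → ℝ) : H.f x (y + z) = H.f x y + H.f x z := by
  rw [H.symm, H.add, H.symm y, H.symm z]

theorem mul' (t : ℝ) (x y : Fin r → ℝ) : H.f x (t • y) = t * H.f x y := by
  rw [H.symm, H.mul, H.symm]

theorem zero (x : Fin r → ℝ) : H.f 0 x = 0 := by
  have := H.mul 0 0 x
  simpa using this

theorem sub (x y z : Fin r → ℝ) : H.f (x - y) z = H.f x z - H.f y z := by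
  have h := H.add x ((-1 : ℝ) • y) z
  rw [H.mul] at h
  have e : x + (-1 : ℝ) • y = x - y := by
    rw [neg_one_smul, sub_eq_add_neg]
  rw [e] at h
  linarith

theorem sub' (x y z : Fin r → ℝ) : H.f x (y - z) = H.f x y - H.f x z := by
  rw [H.symm, H.sub, H.symm y, H.symm z]

theorem sum {ι : Type} (s : Finset ι) (x : ι → Fin r → ℝ) (y : Fin r → ℝ) :
    H.f (∑ i ∈ s, x i) y = ∑ i ∈ s, H.f (x i) y := by
  classical
  induction s using Finset.induction_on with
  | empty => simp [H.zero]
  | insert i s hi ih => rw [Finset.sum_insert hi, Finset.sum_insert hi, H.add, ih]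

theorem sum' {ι : Type} (s : Finset ι) (x : Fin r → ℝ) (y : ι → Fin r → ℝ) :
    H.f x (∑ i ∈ s, y i) = ∑ i ∈ s, H.f x (y i) := by
  rw [H.symm, H.sum]
  exact Finset.sum_congr rfl fun i _ => H.symm _ _

/-- the form is negative definite on the orthogonal complement of a class of positive square -/
theorem neg {L D : Fin r → ℝ} (hL : 0 < H.f L L) (hD : H.f L D = 0) (hDD : 0 ≤ H.f D D) : D = 0 := by
  have hb : H.f H.A L ≠ 0 := by
    intro h0
    have := H.index L h0
    linarith
  set a := H.f H.A D with ha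
  set b := H.f H.A L with hb'
  have h1 : H.f H.A (b • D - a • L) = 0 := by
    rw [H.sub', H.mul', H.mul', ← ha, ← hb']
    ring
  have h2 : H.f (b • D - a • L) (b • D - a • L) = b ^ 2 * H.f D D + a ^ 2 * H.f L L := by
    rw [H.sub, H.sub', H.sub', H.mul, H.mul, H.mul, H.mul, H.mul', H.mul', H.mul', H.mul', hD,
      H.symm D L, hD]
    ring
  have h3 := H.index _ h1
  rw [h2] at h3
  have h4 : 0 ≤ b ^ 2 * H.f D D := mul_nonneg (sq_nonneg _) hDD
  have h5 : 0 ≤ a ^ 2 * H.f L L := mul_nonneg (sq_nonneg _) hL.le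
  have h6 : a ^ 2 * H.f L L = 0 := le_antisymm (by linarith) h5
  have h7 : a = 0 := by
    rcases mul_eq_zero.1 h6 with h | h
    · exact pow_eq_zero_iff (two_ne_zero) |>.1 h
    · exact absurd h hL.ne'
  have h8 := H.index_eq _ h1 (by rw [h2]; linarith)
  rw [h7, zero_smul, sub_zero] at h8
  rcases smul_eq_zero.1 h8 with h | h
  · exact absurd h hb
  · exact h

/-- **F3.** Prime divisors orthogonal to a class of positive square are linearly independent. -/
theorem indep {L : Fin r → ℝ} (hL : 0 < H.f L L) {S : Set Pr} (hS : ∀ G ∈ S, H.f L (H.cl G) = 0)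
    (pos : ∀ G ∈ S, 0 < H.f H.A (H.cl G))
    (dist : ∀ G ∈ S, ∀ G' ∈ S, G ≠ G' → 0 ≤ H.f (H.cl G) (H.cl G')) :
    LinearIndependent ℝ fun G : S => H.cl G := by
  classical
  rw [linearIndependent_iff']
  intro s g hg
  -- positive and negative parts
  have hsplit : ∑ i ∈ s, (max (g i) 0) • H.cl i = ∑ i ∈ s, (max (-g i) 0) • H.cl i := by
    rw [← sub_eq_zero, ← Finset.sum_sub_distrib, ← hg]
    refine Finset.sum_congr rfl fun i _ => ?_
    rw [← sub_smul]
    congr 1
    rcases le_total 0 (g i) with h | h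
    · rw [max_eq_left h, max_eq_right (by linarith)]; ring
    · rw [max_eq_right h, max_eq_left (by linarith)]; ring
  set D := ∑ i ∈ s, (max (g i) 0) • H.cl i with hD
  have hLD : H.f L D = 0 := by
    rw [hD, H.sum']
    exact Finset.sum_eq_zero fun i _ => by rw [H.mul', hS i i.2, mul_zero]
  have hDD : 0 ≤ H.f D D := by
    have e : H.f D D = H.f (∑ i ∈ s, (max (g i) 0) • H.cl i) (∑ i ∈ s, (max (-g i) 0) • H.cl i) := by
      rw [← hsplit]
    rw [e, H.sum]
    refine Finset.sum_nonneg fun i _ => ?_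
    rw [H.sum']
    refine Finset.sum_nonneg fun j _ => ?_
    rw [H.mul, H.mul']
    by_cases hij : i = j
    · subst hij
      rcases le_total 0 (g i) with h | h
      · rw [max_eq_right (a := -g i) (by linarith : -g i ≤ 0)]; simp
      · rw [max_eq_right (a := g i) h]; simp
    · exact mul_nonneg (le_max_right _ _) (mul_nonneg (le_max_right _ _)
        (dist i i.2 j j.2 fun h => hij (Subtype.ext h)))
  have hD0 := H.neg hL hLD hDD
  have key : ∀ c : S → ℝ, (∀ i, 0 ≤ c i) → ∑ i ∈ s, c i • H.cl i = 0 → ∀ i ∈ s, c i = 0 := by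
    intro c hc h0 i hi
    have h1 : H.f H.A (∑ i ∈ s, c i • H.cl i) = 0 := by
      rw [h0, H.symm, H.zero]
    rw [H.sum'] at h1
    have h2 : ∀ j ∈ s, 0 ≤ H.f H.A (c j • H.cl j) := fun j _ => by
      rw [H.mul']
      exact mul_nonneg (hc j) (pos j j.2).le
    have h3 := (Finset.sum_eq_zero_iff_of_nonneg h2).1 h1 i hi
    rw [H.mul'] at h3
    rcases mul_eq_zero.1 h3 with h | h
    · exact h
    · exact absurd h (pos i i.2).ne'
  intro i hi
  have h1 := key (fun i => max (g i) 0) (fun i => le_max_right _ _) (hD ▸ hD0) i hi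
  have h2 := key (fun i => max (-g i) 0) (fun i => le_max_right _ _) (hsplit ▸ hD0) i hi
  have h3 : g i ≤ 0 := by
    have := le_max_left (g i) 0
    linarith [h1.symm ▸ this]
  have h4 : -g i ≤ 0 := by
    have := le_max_left (-g i) 0
    linarith [h2.symm ▸ this]
  linarith

/-- there are at most `r` of them -/
theorem finite {L : Fin r → ℝ} (hL : 0 < H.f L L) {S : Set Pr} (hS : ∀ G ∈ S, H.f L (H.cl G) = 0)
    (pos : ∀ G ∈ S, 0 < H.f H.A (H.cl G))
    (dist : ∀ G ∈ S, ∀ G' ∈ S, G ≠ G' → 0 ≤ H.f (H.cl G) (H.cl G')) : S.Finite := by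
  have h := H.indep hL hS pos dist
  have := h.finite
  exact Set.toFinite S

end Hodge

end Pool.Agent.H72.FB4
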