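import Mathlib

/-!
# Numerical b-classes on fourfolds
-/

namespace Pool.Agent.H72.FB4

/-- CARTIER b-CLASSES of a projective fourfold `X`: `V` is the direct limit of the spaces `N^1(W)` with
real coefficients of the smooth projective birational models `W` of `X`. -/
structure Cls where
  V : Type
  [grp : AddCommGroup V]
  [mod : Module ℝ V]
  /-- the intersection number -/
  I : V → V → V → V → ℝ
  /-- the class is nef on a model `W` on which it is defined -/
  Nef : Set V
  add : ∀ x y a b c, I (x + y) a b c = I x a b c + I y a b c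
  smul : ∀ (t : ℝ) x a b c, I (t • x) a b c = t * I x a b c
  swap : ∀ a b c d, I a b c d = I b a c d
  swap' : ∀ a b c d, I a b c d = I a c b d
  swap'' : ∀ a b c d, I a b c d = I a b d c
  nef_add : ∀ a ∈ Nef, ∀ b ∈ Nef, a + b ∈ Nef
  nef_smul : ∀ a ∈ Nef, ∀ t : ℝ, 0 ≤ t → t • a ∈ Nef
  nonneg : ∀ a ∈ Nef, ∀ b ∈ Nef, ∀ c ∈ Nef, ∀ d ∈ Nef, 0 ≤ I a b c d
  /-- every class is a difference of ample classes -/
  span : ∀ x, ∃ a ∈ Nef, ∃ b ∈ Nef, x = a - b
  /-- Hodge index theorem -/
  hodge : ∀ a ∈ Nef, ∀ b ∈ Nef, ∀ h ∈ Nef, ∀ x, 0 < I h h a b → I h x a b = 0 → I x x a b ≤ 0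

attribute [instance] Cls.grp Cls.mod

/-- A symmetric bilinear form with at most one positive eigenvalue. -/
structure Lor {V : Type} [AddCommGroup V] [Module ℝ V] (B : V → V → ℝ) (N : Set V) : Prop where
  add : ∀ x y z, B (x + y) z = B x z + B y z
  smul : ∀ (t : ℝ) x z, B (t • x) z = t * B x z
  symm : ∀ x y, B x y = B y x
  nef_add : ∀ a ∈ N, ∀ b ∈ N, a + b ∈ N
  nef_smul : ∀ a ∈ N, ∀ t : ℝ, 0 ≤ t → t • a ∈ N
  nonneg : ∀ a ∈ N, ∀ b ∈ N, 0 ≤ B a b
  index : ∀ h ∈ N, ∀ x, 0 < B h h → B h x = 0 → B x x ≤ 0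

namespace Lor

variable {V : Type} [AddCommGroup V] [Module ℝ V] {B : V → V → ℝ} {N : Set V} (F : Lor B N)

include F

theorem add' (x y z : V) : B z (x + y) = B z x + B z y := by
  rw [F.symm, F.add, F.symm x, F.symm y]

theorem smul' (t : ℝ) (x z : V) : B z (t • x) = t * B z x := by
  rw [F.symm, F.smul, F.symm x]

/-- A vector of square zero which is orthogonal to a vector of positive square is in the kernel. -/
theorem ker_of {u z : V} (hu : u ∈ N) (huu : 0 < B u u) (hz : B u z = 0) (hzz : B z z = 0) (y : V) :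
    B z y = 0 := by
  set α := B u y / B u u with hα
  set y' := y + (-α) • u with hy'
  have h1 : B u y' = 0 := by
    rw [hy', F.add', F.smul', hα]
    field_simp
    ring
  have h2 : B z y' = B z y := by
    rw [hy', F.add', F.smul', F.symm z u, hz]
    ring
  rw [← h2]
  have key : ∀ s : ℝ, 2 * s * B z y' + B y' y' ≤ 0 := by
    intro s
    have h3 : B u (s • z + y') = 0 := by rw [F.add', F.smul', hz, h1]; ring
    have h4 := F.index u hu _ huu h3
    have h5 : B (s • z + y') (s • z + y') = 2 * s * B z y' + B y' y' := by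
      have e1 : B z (s • z + y') = B z y' := by rw [F.add' (s • z) y' z, F.smul' s z z, hzz]; ring
      have e2 : B y' (s • z + y') = s * B z y' + B y' y' := by
        rw [F.add' (s • z) y' y', F.smul' s z y', F.symm y' z]
      rw [F.add (s • z) y' (s • z + y'), F.smul s z (s • z + y'), e1, e2]
      ring
    linarith
  by_contra hne
  have h6 := key ((1 + |B y' y'|) / B z y')
  have h7 : 2 * ((1 + |B y' y'|) / B z y') * B z y' = 2 * (1 + |B y' y'|) := by
    field_simp
  rw [h7] at h6
  have h8 := neg_abs_le (B y' y')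
  have h9 := abs_nonneg (B y' y')
  linarith

/-- Two orthogonal isotropic nef vectors are proportional modulo the kernel. -/
theorem isotropic {l m a : V} (hl : l ∈ N) (hm : m ∈ N) (ha : a ∈ N) (hll : B l l = 0)
    (hlm : B l m = 0) (hla : 0 < B l a) :
    B m m = 0 ∧ ∀ y, B m y * B l a = B m a * B l y := by
  set k := B m a / B l a with hk
  set z := m + (-k) • l with hz
  have hza : B a z = 0 := by
    rw [hz, F.add', F.smul', F.symm a m, F.symm a l, hk]
    field_simp
    ring
  have hzl : B l z = 0 := by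
    rw [hz, F.add', F.smul', hlm, hll]
    ring
  have hzz : B z z = B m m := by
    rw [hz, F.add, F.smul, F.add', F.add', F.smul', F.smul', F.symm m l, hlm, hll]
    ring
  have hu : a + l ∈ N := F.nef_add a ha l hl
  have huu : 0 < B (a + l) (a + l) := by
    rw [F.add, F.add', F.add', F.symm a l, hll]
    have := F.nonneg a ha a ha
    linarith
  have huz : B (a + l) z = 0 := by rw [F.add, hza, hzl, add_zero]
  have h1 := F.index _ hu z huu huz
  have h2 := F.nonneg m hm m hm
  have hmm : B m m = 0 := le_antisymm (by rwa [hzz] at h1) h2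
  refine ⟨hmm, fun y => ?_⟩
  have h3 := F.ker_of hu huu huz (by rw [hzz, hmm]) y
  rw [hz, F.add, F.smul, hk] at h3
  field_simp at h3
  linarith

end Lor

namespace Cls

variable (C : Cls)

/-- the form `x.y.a.b` -/
theorem lor {a b : C.V} (ha : a ∈ C.Nef) (hb : b ∈ C.Nef) : Lor (fun x y => C.I x y a b) C.Nef where
  add x y z := C.add x y z a b
  smul t x z := C.smul t x z a b
  symm x y := C.swap x y a b
  nef_add := C.nef_add
  nef_smul := C.nef_smul
  nonneg x hx y hy := C.nonneg x hx y hy a ha b hb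
  index h hh x h1 h2 := C.hodge a ha b hb h hh x h1 h2

theorem rot (a b c d : C.V) : C.I a b c d = C.I c d a b := by
  rw [C.swap' a b c d, C.swap a c b d, C.swap'' c a b d, C.swap' c a d b]

theorem add3 (x y a b c : C.V) : C.I a b (x + y) c = C.I a b x c + C.I a b y c := by
  rw [C.rot, C.add, C.rot x, C.rot y]

theorem smul3 (t : ℝ) (x a b c : C.V) : C.I a b (t • x) c = t * C.I a b x c := by
  rw [C.rot, C.smul, C.rot x]

theorem add4 (x y a b c : C.V) : C.I a b c (x + y) = C.I a b c x + C.I a b c y := by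
  rw [C.swap'', C.add3, C.swap'' a b x c, C.swap'' a b y c]

theorem smul4 (t : ℝ) (x a b c : C.V) : C.I a b c (t • x) = t * C.I a b c x := by
  rw [C.swap'', C.smul3, C.swap'' a b x c]

theorem sub1 (x y a b c : C.V) : C.I (x - y) a b c = C.I x a b c - C.I y a b c := by
  have h := C.add (x - y) y a b c
  rw [sub_add_cancel] at h
  linarith

theorem sub4 (x y a b c : C.V) : C.I a b c (x - y) = C.I a b c x - C.I a b c y := by
  have h := C.add4 (x - y) y a b c
  rw [sub_add_cancel] at h
  linarith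

theorem sub3 (x y a b c : C.V) : C.I a b (x - y) c = C.I a b x c - C.I a b y c := by
  have h := C.add3 (x - y) y a b c
  rw [sub_add_cancel] at h
  linarith

/-- An identity which holds for nef classes holds for all classes. -/
theorem ext_nef {f g : C.V → ℝ} (hf : ∀ x y, f (x - y) = f x - f y)
    (hg : ∀ x y, g (x - y) = g x - g y) (h : ∀ x ∈ C.Nef, f x = g x) (x : C.V) : f x = g x := by
  obtain ⟨a, ha, b, hb, rfl⟩ := C.span x
  rw [hf, hg, h a ha, h b hb]

/-- Let `l` be a nef class with `l^2` not zero and `F` a product of two classes such that for every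
nef class `h` with `l^2.h` not zero the numbers `F.y.h` are a multiple of the numbers `l^2.y.h`. Then
`F` is a multiple of `l^2`. -/
theorem glue {l a : C.V} (ha : a ∈ C.Nef) (haa : 0 < C.I l l a a)
    (hla : ∀ h ∈ C.Nef, 0 ≤ C.I l l a h) {u v : C.V}
    (hF : ∀ h ∈ C.Nef, 0 < C.I l l a h → ∀ y, C.I u v y h * C.I l l a h = C.I u v a h * C.I l l y h) :
    ∀ x y, C.I u v x y = C.I u v a a / C.I l l a a * C.I l l x y := by
  set K := C.I u v a a / C.I l l a a with hK
  have hKa : C.I u v a a = K * C.I l l a a := by rw [hK]; field_simp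
  -- the value for good `h`
  have h1 : ∀ h ∈ C.Nef, 0 < C.I l l a h → ∀ y, C.I u v y h = K * C.I l l y h := by
    intro h hh hp y
    have e1 := hF a ha haa h
    have e2 := hF h hh hp y
    have e3 : C.I u v a h = K * C.I l l a h := by
      rw [C.swap'' u v h a, C.swap'' l l h a, hKa] at e1
      have := mul_right_cancel₀ haa.ne' (a := C.I u v a h) (c := K * C.I l l a h) (by linarith)
      exact this
    rw [e3] at e2
    exact mul_right_cancel₀ hp.ne' (by linarith)
  intro x y
  refine C.ext_nef (f := fun y => C.I u v x y) (g := fun y => K * C.I l l x y)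
    (fun p q => C.sub4 _ _ _ _ _) (fun p q => by simp only [C.sub4]; ring) ?_ y
  intro h hh
  have h2 : h + a ∈ C.Nef := C.nef_add h hh a ha
  have h3 : 0 < C.I l l a (h + a) := by
    rw [C.add4]
    have := hla h hh
    linarith
  have h4 := h1 (h + a) h2 h3 x
  have h5 := h1 a ha haa x
  rw [C.add4, C.add4] at h4
  linarith

/-- Let `l`, `m` be nef, `l^3 = 0`, `l^2 m = 0`, `l^2` not zero: `m^2 l = 0`, and `m l` is a multiple of
`l^2`. -/
theorem mul_l {l m a : C.V} (hl : l ∈ C.Nef) (hm : m ∈ C.Nef) (ha : a ∈ C.Nef)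
    (hlll : ∀ x, C.I l l l x = 0) (hllm : ∀ x, C.I l l m x = 0) (haa : 0 < C.I l l a a) :
    (∀ x, C.I m m l x = 0) ∧ ∃ k, 0 ≤ k ∧ ∀ x y, C.I m l x y = k * C.I l l x y := by
  have hla : ∀ h ∈ C.Nef, 0 ≤ C.I l l a h := fun h hh => C.nonneg l hl l hl a ha h hh
  have key : ∀ h ∈ C.Nef, 0 < C.I l l a h → C.I m m l h = 0 ∧
      ∀ y, C.I m l y h * C.I l l a h = C.I m l a h * C.I l l y h := by
    intro h hh hp
    have F := C.lor hl hh
    have h1 : C.I l l l h = 0 := hlll h
    have h2 : C.I l m l h = 0 := by rw [C.swap' l m l h]; exact hllm h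
    have h3 : 0 < C.I l a l h := by rwa [C.swap' l a l h]
    obtain ⟨h4, h5⟩ := F.isotropic hl hm ha h1 h2 h3
    refine ⟨h4, fun y => ?_⟩
    have h6 := h5 y
    beta_reduce at h6
    rw [C.swap' m y l h, C.swap' l a l h, C.swap' m a l h, C.swap' l y l h] at h6
    exact h6
  refine ⟨?_, ?_⟩
  · intro x
    refine C.ext_nef (f := fun x => C.I m m l x) (g := fun _ => 0) (fun p q => C.sub4 _ _ _ _ _)
      (fun p q => by simp) ?_ x
    intro h hh
    have h2 : h + a ∈ C.Nef := C.nef_add h hh a ha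
    have h3 : 0 < C.I l l a (h + a) := by
      rw [C.add4]
      have := hla h hh
      linarith
    have h4 := (key _ h2 h3).1
    rw [C.add4] at h4
    have h5 := C.nonneg m hm m hm l hl h hh
    have h6 := C.nonneg m hm m hm l hl a ha
    linarith
  · refine ⟨C.I m l a a / C.I l l a a, div_nonneg (C.nonneg m hm l hl a ha a ha) haa.le, ?_⟩
    exact C.glue ha haa hla (fun h hh hp => (key h hh hp).2)

/-- In addition `m l` is not zero: `m^3 = 0`, and `m^2` is a multiple of `l^2`. -/
theorem mul_m {l m a : C.V} (hl : l ∈ C.Nef) (hm : m ∈ C.Nef) (ha : a ∈ C.Nef)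
    (hllm : ∀ x, C.I l l m x = 0) (haa : 0 < C.I l l a a) (hmml : ∀ x, C.I m m l x = 0)
    {k : ℝ} (hk : 0 < k) (hml : ∀ x y, C.I m l x y = k * C.I l l x y) :
    (∀ x, C.I m m m x = 0) ∧ ∃ K, 0 ≤ K ∧ ∀ x y, C.I m m x y = K * C.I l l x y := by
  have hla : ∀ h ∈ C.Nef, 0 ≤ C.I l l a h := fun h hh => C.nonneg l hl l hl a ha h hh
  have key : ∀ h ∈ C.Nef, 0 < C.I l l a h → C.I m m m h = 0 ∧
      ∀ y, C.I m m y h * C.I l l a h = C.I m m a h * C.I l l y h := by
    intro h hh hp
    have F := C.lor hm hh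
    have h1 : C.I l l m h = 0 := hllm h
    have h2 : C.I l m m h = 0 := by rw [C.swap l m m h, C.swap' m l m h]; exact hmml h
    have e : ∀ y, C.I l y m h = k * C.I l l y h := by
      intro y
      rw [C.swap' l y m h, C.swap l m y h, hml]
    have h3 : 0 < C.I l a m h := by rw [e]; exact mul_pos hk hp
    obtain ⟨h4, h5⟩ := F.isotropic hl hm ha h1 h2 h3
    refine ⟨h4, fun y => ?_⟩
    have h6 := h5 y
    beta_reduce at h6
    rw [e, e, C.swap' m y m h, C.swap' m a m h] at h6
    have : k * (C.I m m y h * C.I l l a h) = k * (C.I m m a h * C.I l l y h) := by linarith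
    exact mul_left_cancel₀ hk.ne' this
  refine ⟨?_, ?_⟩
  · intro x
    refine C.ext_nef (f := fun x => C.I m m m x) (g := fun _ => 0) (fun p q => C.sub4 _ _ _ _ _)
      (fun p q => by simp) ?_ x
    intro h hh
    have h2 : h + a ∈ C.Nef := C.nef_add h hh a ha
    have h3 : 0 < C.I l l a (h + a) := by
      rw [C.add4]
      have := hla h hh
      linarith
    have h4 := (key _ h2 h3).1
    rw [C.add4] at h4
    have h5 := C.nonneg m hm m hm m hm h hh
    have h6 := C.nonneg m hm m hm m hm a ha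
    linarith
  · refine ⟨C.I m m a a / C.I l l a a, div_nonneg (C.nonneg m hm m hm a ha a ha) haa.le, ?_⟩
    exact C.glue ha haa hla (fun h hh hp => (key h hh hp).2)

/-- If `m l = 0` then `m.a.a.y = 0`, where `l^2.a^2` is positive. -/
theorem zero_of {l m a : C.V} (hl : l ∈ C.Nef) (hm : m ∈ C.Nef) (ha : a ∈ C.Nef)
    (haa : 0 < C.I l l a a) (hml : C.I m l a a = 0) (y : C.V) : C.I m y a a = 0 := by
  have F := C.lor ha ha
  have h1 : C.I l m a a = 0 := by rw [C.swap l m a a]; exact hml
  have h2 : C.I m m a a = 0 :=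
    le_antisymm (F.index l hl m haa h1) (C.nonneg m hm m hm a ha a ha)
  exact F.ker_of hl haa h1 h2 y

/-- Two nef classes with squares zero and product zero are proportional, as far as the numbers
`x.y.a.a` are concerned. -/
theorem prop {h g a : C.V} (hh : h ∈ C.Nef) (hg : g ∈ C.Nef) (ha : a ∈ C.Nef)
    (hhh : C.I h h a a = 0) (hhg : C.I h g a a = 0) (hha : 0 < C.I h a a a) (y : C.V) :
    C.I (C.I h a a a • g - C.I g a a a • h) y a a = 0 := by
  have F := C.lor ha ha
  obtain ⟨-, h2⟩ := F.isotropic hh hg ha hhh hhg hha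
  have h3 := h2 y
  beta_reduce at h3
  rw [C.sub1, C.smul, C.smul]
  linarith

end Cls

end Pool.Agent.H72.FB4
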