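import Mathlib

/-!
# Extremal classes, divisors on `X` allowed

`X` is a fourfold with trivial canonical class, `L` is a nef divisor of numerical dimension two. All
prime divisors `G` on `X` with `L^2.G = 0` are proportional to one of them, `Φ` (they are the fibres of a
pencil), or there are none. In the first case let `E` be `Φ`, in the second case let `E` be any prime
divisor over `X`. The classes `L - y`, where `y ≥ 0` is a b-divisor which is exceptional up to a multiple of
`E`, and `L - y` is nef as a b-divisor class, form a convex set, and all products of two of them are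
multiples of the class `L^2`.
-/

namespace Pool.Agent.H72.FB4

/-- The b-nef classes `L - y`. `D` is the set of the prime divisors over `X`. -/
structure Ext (D : Type) (E : D) where
  /-- the b-divisors `y ≥ 0`, exceptional up to a multiple of `E`, such that `L - y` is b-nef -/
  N : Set (D → ℝ)
  /-- the product of `L - y` and `L - z` is numerically equal to `Q y z` times the class `L^2` -/
  Q : (D → ℝ) → (D → ℝ) → ℝ
  /-- `L . E` is numerically equal to `g L^2`; if `E` is exceptional then `g = 0` -/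
  g : ℝ
  nonneg : ∀ y ∈ N, ∀ F, 0 ≤ y F
  zero_mem : (0 : D → ℝ) ∈ N
  conv : ∀ y ∈ N, ∀ z ∈ N, ∀ s : ℝ, 0 ≤ s → s ≤ 1 → s • y + (1 - s) • z ∈ N
  symm : ∀ y ∈ N, ∀ z ∈ N, Q y z = Q z y
  /-- `L . y` is `g y_E L^2` -/
  Q_zero : ∀ y ∈ N, Q 0 y = 1 - g * y E
  affine : ∀ y ∈ N, ∀ z ∈ N, ∀ w ∈ N, ∀ s : ℝ, 0 ≤ s → s ≤ 1 →
    Q (s • y + (1 - s) • z) w = s * Q y w + (1 - s) * Q z w
  /-- the product of an effective b-divisor and a b-nef class is not negative -/
  mono : ∀ y ∈ N, ∀ z ∈ N, ∀ w ∈ N, y ≤ z → Q z w ≤ Q y w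
  /-- `(L - y)^2` is not negative -/
  sq : ∀ y ∈ N, 0 ≤ Q y y
  /-- Hodge index theorem, `y - z` is exceptional -/
  hodge : ∀ y ∈ N, ∀ z ∈ N, y E = z E → 0 ≤ Q y y - 2 * Q y z + Q z z → y = z
  /-- the divisorial Zariski decomposition of `L - t E` -/
  least : ∀ t : ℝ, (∃ y ∈ N, t ≤ y E) → ∃ x ∈ N, t ≤ x E ∧ ∀ y ∈ N, t ≤ y E → x ≤ y
  /-- Siu's criterion: `(1 + τ) (L - y) - τ L` is pseudoeffective if `2 τ L (L - y)` is less than
  `(1 + τ) (L - y)^2`, `s = 1 + τ` -/
  siu : ∀ y ∈ N, ∀ s : ℝ, 0 ≤ s → s * (2 * Q 0 y - Q y y) < 2 * Q 0 y → ∃ z ∈ N, s * y E ≤ z E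
  /-- the pseudoeffective cone is closed -/
  top : ∃ y ∈ N, ∀ z ∈ N, z E ≤ y E

variable {D : Type} {E : D} (A : Ext D E)

namespace Ext

theorem smul_mem {y : D → ℝ} (hy : y ∈ A.N) {s : ℝ} (h0 : 0 ≤ s) (h1 : s ≤ 1) : s • y ∈ A.N := by
  have h := A.conv y hy 0 A.zero_mem s h0 h1
  simpa using h

theorem Q_smul {y w : D → ℝ} (hy : y ∈ A.N) (hw : w ∈ A.N) {s : ℝ} (h0 : 0 ≤ s) (h1 : s ≤ 1) :
    A.Q (s • y) w = s * A.Q y w + (1 - s) * (1 - A.g * w E) := by
  have h := A.affine y hy 0 A.zero_mem w hw s h0 h1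
  rw [A.Q_zero w hw] at h
  simpa using h

theorem le_zero {y : D → ℝ} (hy : y ∈ A.N) : A.Q y y ≤ A.Q 0 y :=
  A.mono 0 A.zero_mem y hy y hy (fun F => A.nonneg y hy F)

/-- A bound for the selfintersection, from Siu's criterion. -/
theorem bound {T : ℝ} (hT : 0 < T) (hmax : ∀ z ∈ A.N, z E ≤ T) {x : D → ℝ} (hx : x ∈ A.N) {s : ℝ}
    (h0 : 0 ≤ s) (hs : s * T ≤ x E) : A.Q x x ≤ 2 * A.Q 0 x * (1 - s) := by
  have h1 := A.le_zero hx
  have h2 := A.sq x hx
  by_contra hcon
  push Not at hcon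
  set c := A.Q 0 x with hc
  set Q := A.Q x x with hQ
  have hc0 : 0 < c := by
    rcases (le_trans h2 h1).lt_or_eq with h | h
    · exact h
    · exfalso
      rw [← h] at hcon
      have : Q = 0 := le_antisymm (by rw [h]; exact h1) h2
      rw [this] at hcon
      simp at hcon
  have hp : 0 < 2 * c - Q := by linarith
  have hq : 2 * c - Q < 2 * c * s := by linarith
  have hqs : 0 < s := by
    by_contra h
    have : 2 * c * s ≤ 0 := mul_nonpos_of_nonneg_of_nonpos (by linarith) (by linarith)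
    linarith
  obtain ⟨d, hd1, hd2⟩ : ∃ d, 1 / s < d ∧ d < 2 * c / (2 * c - Q) := by
    apply exists_between
    rw [div_lt_div_iff₀ hqs hp]
    linarith
  have hd0 : 0 < d := lt_trans (by positivity) hd1
  obtain ⟨z, hz, hle⟩ := A.siu x hx d hd0.le (by rwa [lt_div_iff₀ hp] at hd2)
  have h5 := hmax z hz
  have h3 : 1 < d * s := by
    rw [div_lt_iff₀ hqs] at hd1
    exact hd1
  have h4 : d * (s * T) ≤ d * x E := mul_le_mul_of_nonneg_left hs hd0.le
  nlinarith

/-- **Theorem.** There is a class with the maximal coefficient at `E`. If this is positive then the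
selfintersection of the class `L - B` is zero, and every `y` is at least the multiple of `B` with the same
coefficient at `E`. -/
theorem extremal : ∃ B ∈ A.N, (∀ z ∈ A.N, z E ≤ B E) ∧
    (0 < B E → A.Q B B = 0 ∧ ∀ y ∈ A.N, y E • B ≤ B E • y) := by
  obtain ⟨B, hB, hmax⟩ := A.top
  refine ⟨B, hB, hmax, fun hT => ?_⟩
  set T := B E with hTdef
  have hBB : A.Q B B = 0 := by
    refine le_antisymm ?_ (A.sq B hB)
    have := A.bound hT hmax hB (s := 1) zero_le_one (by rw [one_mul])
    linarith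
  refine ⟨hBB, fun y hy => ?_⟩
  set c := 1 - A.g * T with hcdef
  -- uniqueness of the maximal element
  have huniq : ∀ z ∈ A.N, T ≤ z E → z = B := by
    intro z hz hzT
    have hzz : A.Q z z = 0 := by
      refine le_antisymm ?_ (A.sq z hz)
      have := A.bound hT hmax hz (s := 1) zero_le_one (by rwa [one_mul])
      linarith
    have hm := A.conv z hz B hB (1 / 2) (by norm_num) (by norm_num)
    have hmT : (1 : ℝ) * T ≤ ((1 / 2 : ℝ) • z + (1 - 1 / 2 : ℝ) • B) E := by
      simp only [Pi.add_apply, Pi.smul_apply, smul_eq_mul]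
      linarith
    have hmm := A.bound hT hmax hm (s := 1) zero_le_one hmT
    rw [A.affine z hz B hB _ hm (1 / 2) (by norm_num) (by norm_num), A.symm z hz _ hm, A.symm B hB _ hm,
      A.affine z hz B hB z hz (1 / 2) (by norm_num) (by norm_num),
      A.affine z hz B hB B hB (1 / 2) (by norm_num) (by norm_num), A.symm B hB z hz, hzz, hBB] at hmm
    refine A.hodge z hz B hB (le_antisymm (hmax z hz) hzT) ?_
    rw [hzz, hBB]
    linarith
  -- the least elements
  have hleast : ∀ s : ℝ, 0 ≤ s → s ≤ 1 → ∃ x ∈ A.N, s * T ≤ x E ∧ ∀ z ∈ A.N, s * T ≤ z E → x ≤ z := by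
    intro s h0 h1
    exact A.least (s * T) ⟨B, hB, by nlinarith⟩
  choose! x hxN hxE hxle using hleast
  have hxB : ∀ s, 0 ≤ s → s ≤ 1 → x s ≤ s • B := fun s h0 h1 =>
    hxle s h0 h1 _ (A.smul_mem hB h0 h1) (by simp [← hTdef])
  have hxeqE : ∀ s, 0 ≤ s → s ≤ 1 → x s E = s * T := fun s h0 h1 =>
    le_antisymm (by simpa [← hTdef] using hxB s h0 h1 E) (hxE s h0 h1)
  have hc0 : ∀ s, 0 ≤ s → s ≤ 1 → A.Q 0 (x s) = (1 - s) + s * c := by
    intro s h0 h1
    rw [A.Q_zero _ (hxN s h0 h1), hxeqE s h0 h1, hcdef]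
    ring
  have hsB : ∀ s, 0 ≤ s → s ≤ 1 → A.Q (s • B) B = (1 - s) * c := by
    intro s h0 h1
    rw [A.Q_smul hB hB h0 h1, hBB, ← hTdef, ← hcdef]
    ring
  -- `u = Q B x - (1 - s) c`
  have hu : ∀ s, 0 ≤ s → s ≤ 1 → (1 - s) * c ≤ A.Q (x s) B := by
    intro s h0 h1
    have h := A.mono (x s) (hxN s h0 h1) _ (A.smul_mem hB h0 h1) B hB (hxB s h0 h1)
    rwa [hsB s h0 h1] at h
  have hv : ∀ s, 0 ≤ s → s ≤ 1 →
      s * A.Q (x s) B + (1 - s) * ((1 - s) + s * c) ≤ A.Q (x s) (x s) := by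
    intro s h0 h1
    have h := A.mono (x s) (hxN s h0 h1) _ (A.smul_mem hB h0 h1) (x s) (hxN s h0 h1) (hxB s h0 h1)
    rw [A.Q_smul hB (hxN s h0 h1) h0 h1, A.symm B hB (x s) (hxN s h0 h1), hxeqE s h0 h1] at h
    have : (1 - s) * (1 - A.g * (s * T)) = (1 - s) * ((1 - s) + s * c) := by rw [hcdef]; ring
    linarith
  have hw : ∀ s, 0 ≤ s → s ≤ 1 →
      s * (A.Q (x s) B - (1 - s) * c) ≤ (1 - s) ^ 2 := by
    intro s h0 h1
    have h2 := A.bound hT hmax (hxN s h0 h1) h0 (hxE s h0 h1)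
    rw [hc0 s h0 h1] at h2
    have h3 := hv s h0 h1
    nlinarith
  -- `u` is zero
  have hzero : ∀ s, 0 ≤ s → s < 1 → A.Q (x s) B ≤ (1 - s) * c := by
    intro s h0 h1
    by_contra hcon
    push Not at hcon
    set u := A.Q (x s) B - (1 - s) * c with hu'
    have hupos : 0 < u := by linarith
    have h1s : 0 < 1 - s := by linarith
    have key : ∀ s', s ≤ s' → s' < 1 → s' * u ≤ (1 - s) * (1 - s') := by
      intro s' hss h1'
      have h0s : 0 ≤ s' := le_trans h0 hss
      set a := (1 - s') / (1 - s) with ha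
      have ha0 : 0 ≤ a := div_nonneg (by linarith) h1s.le
      have ha1 : a ≤ 1 := by rw [ha, div_le_one h1s]; linarith
      have has : a * (1 - s) = 1 - s' := by rw [ha]; field_simp
      have hc := A.conv (x s) (hxN s h0 h1.le) B hB a ha0 ha1
      have hcE : s' * T ≤ (a • x s + (1 - a) • B) E := by
        have h4 : s' = a * s + (1 - a) := by linarith
        simp only [Pi.add_apply, Pi.smul_apply, smul_eq_mul, ← hTdef]
        rw [hxeqE s h0 h1.le, h4]
        exact le_of_eq (by ring)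
      have hle := hxle s' h0s h1'.le _ hc hcE
      have h6 := A.mono (x s') (hxN s' h0s h1'.le) _ hc B hB hle
      rw [A.affine _ (hxN s h0 h1.le) B hB B hB a ha0 ha1, hBB, mul_zero, add_zero] at h6
      have h7 := hw s' h0s h1'.le
      have h8 : a * u ≤ A.Q (x s') B - (1 - s') * c := by
        have : a * u = a * A.Q (x s) B - (1 - s') * c := by rw [hu', ← has]; ring
        linarith
      have h9 : s' * (a * u) ≤ (1 - s') ^ 2 := le_trans (mul_le_mul_of_nonneg_left h8 h0s) h7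
      have h12 : 0 < 1 - s' := by linarith
      have h11 : s' * u * (1 - s') ≤ (1 - s) * (1 - s') * (1 - s') := by
        have : s' * u * (1 - s') = (1 - s) * (s' * (a * u)) := by rw [← has]; ring
        rw [this]
        nlinarith
      exact le_of_mul_le_mul_right h11 h12
    obtain ⟨s', hs1, hs2, hs3, hs4⟩ : ∃ s', s ≤ s' ∧ s' < 1 ∧ 1 / 2 ≤ s' ∧ (1 - s) * (1 - s') < u / 2 := by
      refine ⟨max (max s (1 / 2)) (1 - u / 4), le_trans (le_max_left _ _) (le_max_left _ _), ?_,
        le_trans (le_max_right _ _) (le_max_left _ _), ?_⟩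
      · rw [max_lt_iff, max_lt_iff]
        exact ⟨⟨h1, by norm_num⟩, by linarith⟩
      · have h2 : 1 - u / 4 ≤ max (max s (1 / 2)) (1 - u / 4) := le_max_right _ _
        have h3 : 1 - max (max s (1 / 2)) (1 - u / 4) ≤ u / 4 := by linarith
        have h4 : (1 - s) * (1 - max (max s (1 / 2)) (1 - u / 4)) ≤ 1 * (u / 4) := by
          refine mul_le_mul (by linarith) h3 ?_ zero_le_one
          have : max (max s (1 / 2)) (1 - u / 4) ≤ 1 := by
            rw [max_le_iff, max_le_iff]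
            exact ⟨⟨h1.le, by norm_num⟩, by linarith⟩
          linarith
        linarith
    have := key s' hs1 hs2
    nlinarith
  have hxeq : ∀ s, 0 ≤ s → s < 1 → x s = s • B := by
    intro s h0 h1
    have h2 : A.Q (x s) B = (1 - s) * c := le_antisymm (hzero s h0 h1) (hu s h0 h1.le)
    have hE : x s E = (s • B) E := by
      rw [hxeqE s h0 h1.le]
      simp [← hTdef]
    refine A.hodge _ (hxN s h0 h1.le) _ (A.smul_mem hB h0 h1.le) hE ?_
    have h3 : A.Q (x s) (s • B) = s * ((1 - s) * c) + (1 - s) * ((1 - s) + s * c) := by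
      rw [A.symm _ (hxN s h0 h1.le) _ (A.smul_mem hB h0 h1.le), A.Q_smul hB (hxN s h0 h1.le) h0 h1.le,
        A.symm B hB _ (hxN s h0 h1.le), h2, hxeqE s h0 h1.le, hcdef]
      ring
    have h4 : A.Q (s • B) (s • B) = s * ((1 - s) * c) + (1 - s) * ((1 - s) + s * c) := by
      rw [A.Q_smul hB (A.smul_mem hB h0 h1.le) h0 h1.le, A.symm B hB _ (A.smul_mem hB h0 h1.le),
        hsB s h0 h1.le]
      simp only [Pi.smul_apply, smul_eq_mul, ← hTdef]
      rw [hcdef]
      ring
    have h5 := hv s h0 h1.le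
    rw [h2] at h5
    rw [h3, h4]
    linarith
  -- conclusion
  intro F
  simp only [Pi.smul_apply, smul_eq_mul]
  have hyT : y E ≤ T := hmax y hy
  have hy0 : 0 ≤ y E := A.nonneg y hy E
  rcases hyT.lt_or_eq with h | h
  · have hs0 : 0 ≤ y E / T := by positivity
    have hs1 : y E / T < 1 := by rwa [div_lt_one hT]
    have hyE : y E / T * T ≤ y E := by rw [div_mul_cancel₀ _ hT.ne']
    have h2 := hxle _ hs0 hs1.le y hy hyE F
    rw [hxeq _ hs0 hs1] at h2
    simp only [Pi.smul_apply, smul_eq_mul] at h2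
    have h3 : y E * B F = T * (y E / T * B F) := by field_simp
    rw [h3]
    exact mul_le_mul_of_nonneg_left h2 hT.le
  · rw [huniq y hy h.ge, ← hTdef]

end Ext

end Pool.Agent.H72.FB4
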