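import Pool.Agent.H15.XF.Lin

/-!
# The product with the square of an ample class is injective on classes of divisors
-/

namespace Pool.Agent.H72.FB4

open Pool.Agent.H15.XF

variable {r : ℕ} {B : BCl r}

/-- An isotropic vector orthogonal to a vector of positive square is in the kernel of the form. -/
theorem kernel {M H a u : B.V} (hM : B.Nef M) (hH : B.Nef H) (ha : 0 < B.I a a M H)
    (hu : B.I u a M H = 0) (huu : B.I u u M H = 0) (w : B.V) : B.I u w M H = 0 := by
  set q : B.V → B.V → ℝ := fun x y => B.I x y M H with hq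
  have hadd : ∀ x y z, q (x + y) z = q x z + q y z := fun x y z => BCl.I1_add _ _ _ _ _
  have hmul : ∀ (t : ℝ) x y, q (t • x) y = t * q x y := fun t x y => BCl.I1_smul _ _ _ _ _
  have hsub : ∀ x y z, q (x - y) z = q x z - q y z := fun x y z => BCl.I1_sub _ _ _ _ _
  have hsym : ∀ x y, q x y = q y x := fun x y => B.symm12 _ _ _ _
  have hadd' : ∀ x y z, q x (y + z) = q x y + q x z := fun x y z => BCl.I2_add _ _ _ _ _
  have hmul' : ∀ (t : ℝ) x y, q x (t • y) = t * q x y := fun t x y => BCl.I2_smul _ _ _ _ _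
  have hind : ∀ x, q x a = 0 → q x x ≤ 0 := fun x hx => B.index M H x a hM hH ha hx
  have ha' : 0 < q a a := ha
  have hu' : q u a = 0 := hu
  have huu' : q u u = 0 := huu
  show q u w = 0
  set c := q w a / q a a with hc
  set w' := w - c • a with hw'
  have h1 : q w' a = 0 := by
    rw [hw', hsub, hmul, hc, div_mul_cancel₀ _ ha'.ne', sub_self]
  have h2 : ∀ t : ℝ, q w' w' + 2 * t * q w' u ≤ 0 := by
    intro t
    have h3 := hind (w' + t • u) (by rw [hadd, hmul, h1, hu', mul_zero, add_zero])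
    rw [hadd, hadd', hadd', hmul, hmul, hmul', hmul', huu', hsym u w'] at h3
    linarith
  have h3 : q w' u = 0 := by
    by_contra hne
    have h4 := h2 ((1 - q w' w') / (2 * q w' u))
    have h5 : 2 * ((1 - q w' w') / (2 * q w' u)) * q w' u = 1 - q w' w' := by
      field_simp
    rw [h5] at h4
    linarith
  have h4 : q w u = 0 := by
    have e : w = w' + c • a := by rw [hw', sub_add_cancel]
    rw [e, hadd, hmul, h3, hsym a u, hu', mul_zero, add_zero]
  rw [hsym]
  exact h4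

/-- sufficiently positive classes -/
def Big (B : BCl r) (y : Fin r → ℝ) : Prop := B.Nef (B.pb (y - B.A))

theorem Big.nef {y : Fin r → ℝ} (h : Big B y) : B.Nef (B.pb y) := by
  have h1 := B.nef_add _ _ h B.nef_A
  rw [← BCl.pb_add, sub_add_cancel] at h1
  exact h1

theorem exists_big (y : Fin r → ℝ) : ∃ s : ℝ, Big B (s • B.A + y) := by
  obtain ⟨t, ht⟩ := B.ample y
  refine ⟨t + 1, ?_⟩
  unfold Big
  have e : (t + 1) • B.A + y - B.A = t • B.A + y := by module
  rw [e]
  exact ht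

/-- a statement which is linear and true for the sufficiently positive classes is true -/
theorem of_big {f : (Fin r → ℝ) → ℝ} (hf : ∀ x y, f (x + y) = f x + f y)
    (hs : ∀ (t : ℝ) x, f (t • x) = t * f x) (hA : f B.A = 0) (h : ∀ y, Big B y → f y = 0)
    (y : Fin r → ℝ) : f y = 0 := by
  obtain ⟨s, h1⟩ := exists_big (B := B) y
  have h2 := h _ h1
  rw [hf, hs, hA, mul_zero, zero_add] at h2
  exact h2

/-- if a class is orthogonal to `A` and its square is zero for the form `x.y.A.A` then it is zero -/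
theorem index_eq (hA : 0 < B.I (B.pb B.A) (B.pb B.A) (B.pb B.A) (B.pb B.A)) {x : Fin r → ℝ}
    (h : B.I (B.pb B.A) (B.pb x) (B.pb B.A) (B.pb B.A) = 0)
    (h' : B.I (B.pb x) (B.pb x) (B.pb B.A) (B.pb B.A) = 0) : x = 0 := by
  set A := B.pb B.A with hAdef
  -- positivity
  have pos : ∀ y z, Big B y → Big B z → 0 < B.I A A (B.pb y) (B.pb z) := by
    intro y z hy hz
    have e1 : B.pb y = A + B.pb (y - B.A) := by
      rw [hAdef, ← BCl.pb_add, add_sub_cancel]
    have e2 : B.pb z = A + B.pb (z - B.A) := by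
      rw [hAdef, ← BCl.pb_add, add_sub_cancel]
    have h1 : 0 ≤ B.I A A (B.pb (y - B.A)) (B.pb z) := B.nonneg _ _ _ _ B.nef_A B.nef_A hy hz.nef
    have h2 : 0 ≤ B.I A A A (B.pb (z - B.A)) := B.nonneg _ _ _ _ B.nef_A B.nef_A B.nef_A hz
    rw [e1, BCl.I3_add]
    have h3 : 0 < B.I A A A (B.pb z) := by
      rw [e2, BCl.I4_add]
      linarith
    linarith
  have posA : ∀ y, Big B y → 0 < B.I A A (B.pb y) A := by
    intro y hy
    have e1 : B.pb y = A + B.pb (y - B.A) := by
      rw [hAdef, ← BCl.pb_add, add_sub_cancel]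
    have h1 : 0 ≤ B.I A A (B.pb (y - B.A)) A := B.nonneg _ _ _ _ B.nef_A B.nef_A hy B.nef_A
    rw [e1, BCl.I3_add]
    linarith
  have symm13 : ∀ a b c d, B.I a b c d = B.I c b a d := fun a b c d => by
    rw [B.symm12, B.symm23, B.symm12]
  -- first step
  have s1 : ∀ w, B.I (B.pb x) w A A = 0 := kernel B.nef_A B.nef_A hA (by rw [B.symm12]; exact h) h'
  -- second step
  have s2 : ∀ w y, B.I (B.pb x) w (B.pb y) A = 0 := by
    intro w
    refine of_big (B := B) (f := fun y => B.I (B.pb x) w (B.pb y) A) (fun y z => by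
      show B.I (B.pb x) w (B.pb (y + z)) A = _
      rw [BCl.pb_add, BCl.I3_add]) (fun t y => by
      show B.I (B.pb x) w (B.pb (t • y)) A = _
      rw [BCl.pb_smul, BCl.I3_smul]) (s1 w) ?_
    intro y hy
    have le : ∀ z, Big B z → B.I (B.pb x) (B.pb x) (B.pb z) A ≤ 0 := fun z hz =>
      B.index _ _ _ A hz.nef B.nef_A (posA z hz) (by
        rw [B.symm23]
        exact s1 _)
    obtain ⟨s, hs⟩ := exists_big (B := B) (-y)
    have h1 := le _ hs
    rw [BCl.pb_add, BCl.pb_smul, BCl.I3_add, BCl.I3_smul, h', mul_zero, zero_add] at h1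
    have e : B.pb (-y) = (-1 : ℝ) • B.pb y := by rw [← BCl.pb_smul, neg_one_smul]
    rw [e, BCl.I3_smul] at h1
    have h2 : B.I (B.pb x) (B.pb x) (B.pb y) A = 0 := le_antisymm (le y hy) (by linarith)
    exact kernel hy.nef B.nef_A (posA y hy) (by
      rw [B.symm23]
      exact s1 _) h2 w
  -- third step
  have s3 : ∀ w y, Big B y → ∀ z, B.I (B.pb x) w (B.pb y) (B.pb z) = 0 := by
    intro w y hy
    refine of_big (B := B) (f := fun z => B.I (B.pb x) w (B.pb y) (B.pb z)) (fun z z' => by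
      show B.I (B.pb x) w (B.pb y) (B.pb (z + z')) = _
      rw [BCl.pb_add, BCl.I4_add]) (fun t z => by
      show B.I (B.pb x) w (B.pb y) (B.pb (t • z)) = _
      rw [BCl.pb_smul, BCl.I4_smul]) (s2 w y) ?_
    intro z hz
    have hxA : ∀ z, B.I (B.pb x) A (B.pb y) (B.pb z) = 0 := fun z => by
      have h1 := s2 (B.pb z) y
      rw [B.symm34, B.symm23, B.symm34] at h1
      exact h1
    have le : ∀ z, Big B z → B.I (B.pb x) (B.pb x) (B.pb y) (B.pb z) ≤ 0 := fun z hz =>
      B.index _ _ _ A hy.nef hz.nef (pos y z hy hz) (hxA z)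
    obtain ⟨s, hs⟩ := exists_big (B := B) (-z)
    have h1 := le _ hs
    rw [BCl.pb_add, BCl.pb_smul, BCl.I4_add, BCl.I4_smul, s2 (B.pb x) y, mul_zero, zero_add] at h1
    have e : B.pb (-z) = (-1 : ℝ) • B.pb z := by rw [← BCl.pb_smul, neg_one_smul]
    rw [e, BCl.I4_smul] at h1
    have h2 : B.I (B.pb x) (B.pb x) (B.pb y) (B.pb z) = 0 := le_antisymm (le z hz) (by linarith)
    exact kernel hy.nef hz.nef (pos y z hy hz) (hxA z) h2 w
  refine B.nd x fun w y z => ?_
  refine of_big (B := B) (f := fun y => B.I (B.pb x) (B.pb w) (B.pb y) (B.pb z)) (fun y y' => by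
      show B.I (B.pb x) (B.pb w) (B.pb (y + y')) (B.pb z) = _
      rw [BCl.pb_add, BCl.I3_add]) (fun t y => by
      show B.I (B.pb x) (B.pb w) (B.pb (t • y)) (B.pb z) = _
      rw [BCl.pb_smul, BCl.I3_smul]) ?_ (fun y hy => s3 _ y hy z) y
  have h1 := s2 (B.pb w) z
  rw [B.symm34] at h1
  exact h1

/-- `A` has positive degree -/
theorem A_pos {L : Fin r → ℝ} (hL : B.Nef (B.pb L))
    (pos : 0 < B.I (B.pb L) (B.pb L) (B.pb B.A) (B.pb B.A)) :
    0 < B.I (B.pb B.A) (B.pb B.A) (B.pb B.A) (B.pb B.A) := by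
  obtain ⟨s, hs⟩ := exists_big (B := B) (-L)
  have e : B.pb (s • B.A + -L) = s • B.pb B.A - B.pb L := by
    rw [← BCl.pb_smul, ← BCl.pb_sub, sub_eq_add_neg]
  have h1 := hs.nef
  rw [e] at h1
  have h2 := B.nonneg _ _ _ _ h1 hL B.nef_A B.nef_A
  have h3 := B.nonneg _ _ _ _ h1 B.nef_A B.nef_A B.nef_A
  have h4 := B.nonneg _ _ _ _ hL B.nef_A B.nef_A B.nef_A
  have h5 := B.nonneg _ _ _ _ B.nef_A B.nef_A B.nef_A B.nef_A
  rw [BCl.I1_sub, BCl.I1_smul] at h2 h3
  rw [B.symm12 (B.pb B.A) (B.pb L)] at h2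
  rcases lt_or_eq_of_le h5 with h6 | h6
  · exact h6
  · rw [← h6, mul_zero] at h3
    have h7 : B.I (B.pb L) (B.pb B.A) (B.pb B.A) (B.pb B.A) = 0 := by linarith
    rw [h7, mul_zero] at h2
    linarith

end Pool.Agent.H72.FB4
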