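import Pool.Agent.H72.FB4.Lef
import Pool.Agent.H72.FB4.Indep

/-!
# Case E: the good classes have finitely many components on `X` altogether
-/

namespace Pool.Agent.H72.FB4

open Pool.Agent.H15.XF

variable {r : ℕ}

/-- the linear function `x ↦ L.x.A.A` -/
noncomputable def phi (B : BCl r) (L : Fin r → ℝ) : (Fin r → ℝ) →ₗ[ℝ] ℝ where
  toFun x := B.I (B.pb L) (B.pb x) (B.pb B.A) (B.pb B.A)
  map_add' x y := by rw [BCl.pb_add, BCl.I2_add]
  map_smul' t x := by rw [BCl.pb_smul, BCl.I2_smul, smul_eq_mul, RingHom.id_apply]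

/-- If `L.w.A.A = L.L.A.A` then the components of `w` on `X` are orthogonal to `L`. -/
theorem orthE (B : BCl r) (L : Fin r → ℝ) (hL : B.Nef (B.pb L)) {w : B.V} (hw : Good B L w)
    (h : B.I (B.pb L) w (B.pb B.A) (B.pb B.A) = B.I (B.pb L) (B.pb L) (B.pb B.A) (B.pb B.A)) :
    ∀ G, B.X G → B.o w G ≠ 0 → B.I (B.pb L) (B.pb (B.cl G)) (B.pb B.A) (B.pb B.A) = 0 := by
  have h1 : HasSum (fun G : {G // B.X G} => B.o w G * phi B L (B.cl G))
      (phi B L (B.tr w - B.cx w)) := by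
    have h2 := (B.sum w).mapL (LinearMap.toContinuousLinearMap (phi B L))
    have e : (fun G : {G // B.X G} => B.o w G * phi B L (B.cl G)) =
        fun G : {G // B.X G} => LinearMap.toContinuousLinearMap (phi B L) (B.o w G • B.cl G) := by
      funext G
      rw [map_smul, smul_eq_mul]
      rfl
    rw [e]
    exact h2
  have h2 : phi B L (B.tr w - B.cx w) = 0 := by
    rw [map_sub, hw.2.1]
    show B.I (B.pb L) (B.pb L) (B.pb B.A) (B.pb B.A) -
      B.I (B.pb L) (B.pb (B.cx w)) (B.pb B.A) (B.pb B.A) = 0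
    rw [B.symm12 (B.pb L) (B.pb (B.cx w)), ← B.proj, B.symm12 w, h, sub_self]
  rw [h2] at h1
  have h3 : ∀ G : {G // B.X G}, 0 ≤ B.o w G * phi B L (B.cl G) := fun G => by
    refine mul_nonneg (hw.2.2 _) ?_
    show 0 ≤ B.I (B.pb L) (B.pb (B.cl G)) (B.pb B.A) (B.pb B.A)
    rw [B.symm12]
    exact B.prime G G.2 _ _ _ hL B.nef_A B.nef_A
  have h4 := (hasSum_zero_iff_of_nonneg h3).1 h1
  intro G hG hoG
  have h5 := congrFun h4 ⟨G, hG⟩
  rcases mul_eq_zero.1 h5 with h6 | h6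
  · exact absurd h6 hoG
  · exact h6

/-- the form `x.y.A.A` -/
noncomputable def hodge (B : BCl r)
    (hA : 0 < B.I (B.pb B.A) (B.pb B.A) (B.pb B.A) (B.pb B.A)) : Hodge r B.D where
  f x y := B.I (B.pb x) (B.pb y) (B.pb B.A) (B.pb B.A)
  A := B.A
  cl := B.cl
  add x y z := by rw [BCl.pb_add, BCl.I1_add]
  mul t x y := by rw [BCl.pb_smul, BCl.I1_smul]
  symm x y := B.symm12 _ _ _ _
  index x hx := B.index _ _ _ (B.pb B.A) B.nef_A B.nef_A hA (by rw [B.symm12]; exact hx)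
  index_eq x hx hxx := index_eq hA hx hxx

/-- **F3**, case E. -/
theorem startE (B : BCl r) (L : Fin r → ℝ) : StartE B L := by
  intro h2 hE
  have hA := A_pos h2.nef h2.pos
  refine (hodge B hA).finite (L := L) h2.pos ?_ ?_ ?_
  · rintro G ⟨hG, w, hw, hpos⟩
    exact orthE B L h2.nef hw (hE w hw) G hG hpos.ne'
  · rintro G ⟨hG, -⟩
    show 0 < B.I (B.pb B.A) (B.pb (B.cl G)) (B.pb B.A) (B.pb B.A)
    rw [B.symm12]
    exact B.prime_pos G hG
  · rintro G ⟨hG, -⟩ G' ⟨hG', -⟩ hne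
    exact B.dist G G' hG hG' hne

end Pool.Agent.H72.FB4
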