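import Mathlib

/-!
# Infinitely many bases of one subspace
-/

namespace Pool.Agent.H72.FB4

open Submodule

variable {K V : Type} [Field K] [AddCommGroup V] [Module K V]

/-- Let `s` be a sequence of non zero vectors in a finite dimensional space. There is a subspace `W`
such that for every `N` some members of the sequence form a basis of `W`, and the sum of their indices
is at least `N`. -/
theorem steinitz [FiniteDimensional K V] (s : ℕ → V) (hs : ∀ i, s i ≠ 0) (S : Set ℕ)
    (hS : S.Infinite) : ∃ (n : ℕ) (W : Submodule K V), ∀ N : ℕ, ∃ f : Fin n → ℕ,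
      LinearIndependent K (fun i => s (f i)) ∧ span K (Set.range fun i => s (f i)) = W ∧
        (∀ i, f i ∈ S) ∧ N ≤ ∑ i, f i := by
  classical
  -- a minimal subspace which contains infinitely many members
  obtain ⟨W, ⟨T, hTS, hT, hTW⟩, hmin⟩ : ∃ W : Submodule K V,
      (∃ T : Set ℕ, T ⊆ S ∧ T.Infinite ∧ ∀ i ∈ T, s i ∈ W) ∧
      ∀ W' : Submodule K V, (∃ T : Set ℕ, T ⊆ S ∧ T.Infinite ∧ ∀ i ∈ T, s i ∈ W') →
        Module.finrank K W ≤ Module.finrank K W' := by
    have hne : {d | ∃ W : Submodule K V, Module.finrank K W = d ∧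
        ∃ T : Set ℕ, T ⊆ S ∧ T.Infinite ∧ ∀ i ∈ T, s i ∈ W}.Nonempty :=
      ⟨_, ⊤, rfl, S, subset_rfl, hS, fun i _ => mem_top⟩
    obtain ⟨W, hW, hT⟩ := Nat.sInf_mem hne
    refine ⟨W, hT, fun W' hW' => ?_⟩
    rw [hW]
    exact Nat.sInf_le ⟨W', rfl, hW'⟩
  have hspan : ∀ T' : Set ℕ, T' ⊆ T → T'.Infinite → span K (s '' T') = W := by
    intro T' hT' hinf
    have hle : span K (s '' T') ≤ W := by
      rw [span_le]
      rintro _ ⟨i, hi, rfl⟩
      exact hTW i (hT' hi)
    refine Submodule.eq_of_le_of_finrank_le hle ?_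
    exact hmin _ ⟨T', hT'.trans hTS, hinf, fun i hi => subset_span ⟨i, hi, rfl⟩⟩
  refine ⟨Module.finrank K W, W, fun N => ?_⟩
  -- members with index at least `N`
  set T' := T ∩ {i | N ≤ i} with hT'
  have hinf : T'.Infinite := by
    have h1 : T \ T' ⊆ {i | i < N} := by
      rintro i ⟨hi, hi'⟩
      by_contra h
      refine hi' ⟨hi, ?_⟩
      change N ≤ i
      change ¬ i < N at h
      omega
    by_contra hfin
    rw [Set.not_infinite] at hfin
    exact hT ((Set.Finite.union hfin ((Set.finite_lt_nat N).subset h1)).subset fun i hi => by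
      by_cases h : i ∈ T'
      · exact Or.inl h
      · exact Or.inr ⟨hi, h⟩)
  have hsp := hspan T' Set.inter_subset_left hinf
  obtain ⟨b, hbT, hbspan, hbind⟩ := exists_linearIndependent K (s '' T')
  rw [hsp] at hbspan
  have hbfin : b.Finite := hbind.setFinite
  have : Fintype b := hbfin.fintype
  have hcard : Fintype.card b = Module.finrank K W := by
    have h1 := finrank_span_eq_card hbind
    rw [Subtype.range_coe_subtype, Set.ofPred_mem_eq, hbspan] at h1
    exact h1.symm
  let e : Fin (Module.finrank K W) ≃ b := (Fin.castOrderIso hcard.symm).toEquiv.trans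
    (Fintype.equivFin b).symm
  have hch : ∀ i : Fin (Module.finrank K W), ∃ j ∈ T', s j = (e i : V) := fun i =>
    hbT (e i).2
  choose f hf hf' using hch
  refine ⟨f, ?_, ?_, fun i => hTS (hf i).1, ?_⟩
  · have h1 : (fun i => s (f i)) = (fun x : b => (x : V)) ∘ e := by
      funext i
      exact hf' i
    rw [h1]
    exact hbind.comp _ e.injective
  · have h1 : (Set.range fun i => s (f i)) = b := by
      have h2 : (fun i => s (f i)) = (fun x : b => (x : V)) ∘ e := by
        funext i
        exact hf' i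
      rw [h2, Set.range_comp, e.range_eq_univ, Set.image_univ, Subtype.range_coe]
    rw [h1, hbspan]
  · -- the dimension is positive
    have hpos : 0 < Module.finrank K W := by
      obtain ⟨i, hi⟩ := hT.nonempty
      have h1 : (⟨s i, hTW i hi⟩ : W) ≠ 0 := fun h => hs i (congrArg Subtype.val h)
      exact Module.finrank_pos_iff_exists_ne_zero.2 ⟨_, h1⟩
    refine le_trans (hf ⟨0, hpos⟩).2 ?_
    exact Finset.single_le_sum (f := f) (fun _ _ => Nat.zero_le _) (Finset.mem_univ _)

/-- The same for a sequence of vectors, infinitely many of which are given with their labels. -/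
theorem steinitz_pred [FiniteDimensional K V] (P : ℕ → V → Prop)
    (h : ∀ N : ℕ, ∃ m, N ≤ m ∧ ∃ v, v ≠ 0 ∧ P m v) : ∃ (n : ℕ) (W : Submodule K V), ∀ N : ℕ,
      ∃ (v : Fin n → V) (m : Fin n → ℕ), LinearIndependent K v ∧ span K (Set.range v) = W ∧
        (∀ i, P (m i) (v i)) ∧ N ≤ ∑ i, m i := by
  classical
  by_cases hV : ∃ v : V, v ≠ 0
  swap
  · obtain ⟨m, -, v, hv, -⟩ := h 0
    exact absurd ⟨v, hv⟩ hV
  obtain ⟨v0, hv0⟩ := hV
  set S : Set ℕ := {m | ∃ v, v ≠ 0 ∧ P m v} with hSdef
  have hS : S.Infinite := by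
    rw [Set.infinite_iff_exists_gt]
    intro a
    obtain ⟨m, hm, v, hv, hP⟩ := h (a + 1)
    exact ⟨m, ⟨v, hv, hP⟩, by omega⟩
  have hch : ∀ m : ℕ, ∃ v : V, v ≠ 0 ∧ (m ∈ S → P m v) := by
    intro m
    by_cases hm : m ∈ S
    · obtain ⟨v, hv, hP⟩ := hm
      exact ⟨v, hv, fun _ => hP⟩
    · exact ⟨v0, hv0, fun h => absurd h hm⟩
  choose s hs hP using hch
  obtain ⟨n, W, hW⟩ := steinitz (K := K) s hs S hS
  refine ⟨n, W, fun N => ?_⟩
  obtain ⟨f, h1, h2, h3, h4⟩ := hW N
  exact ⟨fun i => s (f i), f, h1, h2, fun i => hP _ (h3 i), h4⟩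

end Pool.Agent.H72.FB4
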